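import Mathlib
import Pool.Agent.H82.BF.Ex

/-!
# Every finite group is isomorphic to a group of copies of its regular representation (for helper67)
-/

set_option autoImplicit false

open Pool.Agent.H82.BF

namespace Pool.Agent.H69.BG

theorem exists_copies (H : Type) [Group H] [Finite H] (F : Type) [Field F] (N n : ℕ)
    (hN0 : 0 < N) (hN : Even N) (hn : N * Nat.card H ≤ n) :
    ∃ φ : H →* Matrix.SpecialLinearGroup (Fin n) F, Function.Injective φ ∧
      ∀ y : H, ((φ y : Matrix (Fin n) (Fin n) F) - 1).rank ≤ N * Nat.card H ∧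
        (y ≠ 1 → N ≤ ((φ y : Matrix (Fin n) (Fin n) F) - 1).rank) := by
  classical
  set k := Nat.card H with hk
  let ε : H ≃ Fin k := Finite.equivFin H
  obtain ⟨l, hl⟩ : ∃ l, n = N * k + l := ⟨n - N * k, by omega⟩
  let E : Fin n ≃ (Fin N × Fin k) ⊕ Fin l :=
    (finCongr hl).trans (finSumFinEquiv.symm.trans (Equiv.sumCongr finProdFinEquiv.symm
      (Equiv.refl (Fin l))))
  have hsign : ∀ y : H, Equiv.Perm.sign (rg ε y) ^ N = 1 := by
    intro y
    obtain ⟨m, hm⟩ := hN
    rw [hm, pow_add, ← mul_pow, Int.units_mul_self, one_pow]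
  have hmv : ∀ (y : H) (w : Fin n → F) (i : Fin n),
      ((ph F E (rg ε) hsign y : Matrix.SpecialLinearGroup (Fin n) F) :
        Matrix (Fin n) (Fin n) F).mulVec w i = w ((PP E (rg ε y))⁻¹ i) := by
    intro y w i
    show (((PP E (rg ε y))⁻¹).permMatrix F).mulVec w i = _
    rw [Matrix.permMatrix_mulVec]
    rfl
  have hinl : ∀ (y : H) (i : Fin N) (j : Fin k), (PP E (rg ε y))⁻¹ (E.symm (Sum.inl (i, j))) =
      E.symm (Sum.inl (i, (rg ε y)⁻¹ j)) := by
    intro y i j
    rw [← map_inv, PP_inl]
  have hinr : ∀ (y : H) (j : Fin l), (PP E (rg ε y))⁻¹ (E.symm (Sum.inr j)) =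
      E.symm (Sum.inr j) := by
    intro y j
    rw [← map_inv, PP_inr]
  refine ⟨ph F E (rg ε) hsign, ?_, fun y => ⟨?_, ?_⟩⟩
  · intro a b hab
    apply rg_inj ε
    have h2 : (rg ε a)⁻¹ = (rg ε b)⁻¹ := by
      ext i
      have h3 := hmv a (Pi.single (E.symm (Sum.inl (⟨0, hN0⟩, (rg ε a)⁻¹ i))) 1)
        (E.symm (Sum.inl (⟨0, hN0⟩, i)))
      rw [hab, hmv, hinl, hinl, Pi.single_eq_same] at h3
      by_contra hne
      rw [Pi.single_eq_of_ne] at h3
      · exact zero_ne_one h3
      · intro h4
        apply hne
        have h5 := E.symm.injective h4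
        have h6 := Sum.inl_injective h5
        have h7 := congrArg Prod.snd h6
        simp only at h7
        rw [h7]
    exact inv_injective h2
  · set M : Matrix (Fin n) (Fin n) F :=
      ((ph F E (rg ε) hsign y : Matrix.SpecialLinearGroup (Fin n) F) :
        Matrix (Fin n) (Fin n) F) - 1 with hM
    have hz : ∀ (j : Fin l) (c : Fin n), M (E.symm (Sum.inr j)) c = 0 := by
      intro j c
      have h1 : M.mulVec (Pi.single c 1) (E.symm (Sum.inr j)) = 0 := by
        rw [hM, Matrix.sub_mulVec, Matrix.one_mulVec, Pi.sub_apply, hmv, hinr, sub_self]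
      rw [Matrix.mulVec_single_one] at h1
      exact h1
    let A : Matrix (Fin n) (Fin N × Fin k) F := fun i c => if i = E.symm (Sum.inl c) then 1 else 0
    let B : Matrix (Fin N × Fin k) (Fin n) F := fun c i => M (E.symm (Sum.inl c)) i
    have hAB : M = A * B := by
      ext i c
      rw [Matrix.mul_apply]
      obtain ⟨x, rfl⟩ := E.symm.surjective i
      rcases x with x | j
      · rw [Finset.sum_eq_single x]
        · show M (E.symm (Sum.inl x)) c =
            (if E.symm (Sum.inl x) = E.symm (Sum.inl x) then 1 else 0) * M (E.symm (Sum.inl x)) c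
          rw [if_pos rfl, one_mul]
        · intro x' _ hne
          show (if E.symm (Sum.inl x) = E.symm (Sum.inl x') then (1 : F) else 0) * _ = 0
          rw [if_neg, zero_mul]
          intro h
          exact hne (Sum.inl_injective (E.symm.injective h)).symm
        · intro h
          exact absurd (Finset.mem_univ _) h
      · rw [hz]
        symm
        apply Finset.sum_eq_zero
        intro x' _
        show (if E.symm (Sum.inr j) = E.symm (Sum.inl x') then (1 : F) else 0) * _ = 0
        rw [if_neg, zero_mul]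
        intro h
        exact Sum.inr_ne_inl (E.symm.injective h)
    rw [hAB]
    refine (Matrix.rank_mul_le_left A B).trans ((Matrix.rank_le_card_width A).trans ?_)
    rw [Fintype.card_prod, Fintype.card_fin, Fintype.card_fin]

  · intro hy
    set M : Matrix (Fin n) (Fin n) F :=
      ((ph F E (rg ε) hsign y : Matrix.SpecialLinearGroup (Fin n) F) :
        Matrix (Fin n) (Fin n) F) - 1 with hM
    let j0 : Fin k := ε 1
    let j1 : Fin k := rg ε y j0
    have hj : j1 ≠ j0 := by
      intro h
      apply hy
      have h1 : ε (y * ε.symm (ε 1)) = ε 1 := h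
      rw [Equiv.symm_apply_apply, mul_one] at h1
      exact ε.injective h1
    have hsub : M.submatrix (fun i : Fin N => E.symm (Sum.inl (i, j1)))
        (fun i : Fin N => E.symm (Sum.inl (i, j0))) = 1 := by
      ext i i'
      have h1 : M (E.symm (Sum.inl (i, j1))) (E.symm (Sum.inl (i', j0))) =
          M.mulVec (Pi.single (E.symm (Sum.inl (i', j0))) 1) (E.symm (Sum.inl (i, j1))) := by
        rw [Matrix.mulVec_single_one]
        rfl
      rw [Matrix.submatrix_apply, h1, hM, Matrix.sub_mulVec, Matrix.one_mulVec, Pi.sub_apply, hmv,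
        hinl]
      have h2 : (rg ε y)⁻¹ j1 = j0 := by
        show (rg ε y)⁻¹ (rg ε y j0) = j0
        rw [← Equiv.Perm.mul_apply, inv_mul_cancel, Equiv.Perm.one_apply]
      rw [h2]
      have h3 : (Pi.single (E.symm (Sum.inl (i', j0))) 1 : Fin n → F) (E.symm (Sum.inl (i, j1))) = 0 := by
        rw [Pi.single_eq_of_ne]
        intro h
        have h4 := Sum.inl_injective (E.symm.injective h)
        exact hj (congrArg Prod.snd h4)
      rw [h3, sub_zero]
      by_cases hi : i = i'
      · subst hi
        rw [Pi.single_eq_same, Matrix.one_apply_eq]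
      · rw [Pi.single_eq_of_ne, Matrix.one_apply_ne hi]
        intro h
        have h4 := Sum.inl_injective (E.symm.injective h)
        exact hi (congrArg Prod.fst h4)
    have h5 := Matrix.rank_submatrix_le M (fun i : Fin N => E.symm (Sum.inl (i, j1)))
        (fun i : Fin N => E.symm (Sum.inl (i, j0)))
    rw [hsub, Matrix.rank_one, Fintype.card_fin] at h5
    exact h5

end Pool.Agent.H69.BG
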